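import Mathlib

/-!
# MP_6a4cde: every countable infinite group has a 3-tame system which is not tame.
-/

universe u

namespace Pool.Agent.Results.MP_6a4cde_an.ThreeTame

open Set

/-- `J` is an independence set for `(U_1,…,U_n)`. -/
def IsIndependenceSet {G X : Type*} [Group G] [MulAction G X] {n : ℕ} (U : Fin n → Set X)
    (J : Set G) : Prop :=
  ∀ I : Finset G, I.Nonempty → (I : Set G) ⊆ J → ∀ σ : G → Fin n,
    (⋂ g ∈ I, (fun x => g⁻¹ • x) '' (U (σ g))).Nonempty

/-- `(x_1,…,x_n)` is an IT-tuple. -/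
def IsITTuple (G : Type*) {X : Type*} [Group G] [TopologicalSpace X] [MulAction G X] {n : ℕ}
    (x : Fin n → X) : Prop :=
  ∀ U : Fin n → Set X, (∀ i, U i ∈ nhds (x i)) →
    ∃ J : Set G, J.Infinite ∧ IsIndependenceSet U J

/-- `n`-tameness: every IT-tuple of length `n` has two equal coordinates. -/
def NTame (G X : Type*) [Group G] [TopologicalSpace X] [MulAction G X] (n : ℕ) : Prop :=
  ∀ x : Fin n → X, IsITTuple G x → ∃ i j, i ≠ j ∧ x i = x j

section Sidon

variable {G : Type u} [Group G]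

/-- weak Sidon sets -/
def WS (J : Set G) : Prop := ∀ a ∈ J, ∀ b ∈ J, ∀ c ∈ J, ∀ d ∈ J, a * b⁻¹ = c * d⁻¹ →
  a = b ∨ (a = c ∧ b = d) ∨ (a = d ∧ b = c)

/-- compatibility of the elements of the reservoir -/
def Comp (J : Set G) (g : G) : Prop := ∀ b ∈ J, ∀ c ∈ J, g * b⁻¹ * g = c → b = c

lemma ws_insert {J : Set G} (hJ : WS J) {x : G} (hx : Comp J x)
    (hB : ∀ p ∈ J, ∀ q ∈ J, ∀ r ∈ J, x ≠ p * q⁻¹ * r) : WS (insert x J) := by
  intro a ha b hb c hc d hd h
  by_cases hab : a = b
  · exact Or.inl hab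
  right
  have hcd : c ≠ d := by
    rintro rfl
    rw [mul_inv_cancel, mul_inv_eq_one] at h
    exact hab h
  rcases ha with rfl | ha
  · rcases hb with rfl | hb
    · exact absurd rfl hab
    · rcases hc with rfl | hc
      · left; exact ⟨rfl, inv_injective (mul_left_cancel h)⟩
      · rcases hd with rfl | hd
        · right
          refine ⟨rfl, hx b hb c hc ?_⟩
          rw [h]; group
        · exfalso
          refine hB c hc d hd b hb ?_
          rw [← h]; group
  · rcases hb with rfl | hb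
    · rcases hc with rfl | hc
      · rcases hd with rfl | hd
        · exact absurd rfl hcd
        · right
          refine ⟨(hx d hd a ha ?_).symm, rfl⟩
          rw [← h]; group
      · rcases hd with rfl | hd
        · left; exact ⟨mul_right_cancel h, rfl⟩
        · exfalso
          refine hB d hd c hc a ha ?_
          have h2 : (a * b⁻¹)⁻¹ = (c * d⁻¹)⁻¹ := by rw [h]
          have h3 : b = (a * b⁻¹)⁻¹ * a := by group
          rw [h2] at h3
          rw [h3]; group
    · rcases hc with rfl | hc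
      · rcases hd with rfl | hd
        · exact absurd rfl hcd
        · exfalso
          refine hB a ha b hb d hd ?_
          rw [h]; group
      · rcases hd with rfl | hd
        · exfalso
          refine hB b hb a ha c hc ?_
          have h2 : (a * b⁻¹)⁻¹ = (c * d⁻¹)⁻¹ := by rw [h]
          have h3 : d = (c * d⁻¹)⁻¹ * c := by group
          rw [← h2] at h3
          rw [h3]; group
        · rcases hJ a ha b hb c hc d hd h with h1 | h1
          · exact absurd h1 hab
          · exact h1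

lemma step (J : Finset G) (R : Set G) (hJ : WS (J : Set G)) (hR : R.Infinite)
    (hJR : ∀ g ∈ R, Comp (J : Set G) g) :
    ∃ (J' : Finset G) (R' : Set G), J ⊆ J' ∧ J'.card = J.card + 1 ∧ WS (J' : Set G) ∧
      R'.Infinite ∧ ∀ g ∈ R', Comp (J' : Set G) g := by
  classical
  -- the finite set of forbidden elements
  let B : Finset G := ((J ×ˢ J) ×ˢ J).image fun p => p.1.1 * p.1.2⁻¹ * p.2
  have hRB : (R \ (B : Set G)).Infinite := hR.sdiff B.finite_toSet
  obtain ⟨C, hC, hCcard⟩ := hRB.exists_subset_card_eq (J.card + 1)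
  -- every g is good for some candidate
  have hg : ∀ g : G, ∃ c ∈ C, ∀ b ∈ J, g * b⁻¹ * g ≠ c := by
    intro g
    by_contra hcon
    push Not at hcon
    have : C ⊆ J.image fun b => g * b⁻¹ * g := by
      intro c hc
      obtain ⟨b, hb, h⟩ := hcon c hc
      exact Finset.mem_image.2 ⟨b, hb, h⟩
    have h1 := Finset.card_le_card this
    have h2 : (J.image fun b => g * b⁻¹ * g).card ≤ J.card := Finset.card_image_le
    omega
  obtain ⟨c, hcC, hcinf⟩ : ∃ c ∈ C, {g ∈ R | ∀ b ∈ J, g * b⁻¹ * g ≠ c}.Infinite := by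
    by_contra hcon
    push Not at hcon
    refine hR ?_
    refine Set.Finite.subset (C.finite_toSet.biUnion (t := fun c =>
      {g ∈ R | ∀ b ∈ J, g * b⁻¹ * g ≠ c}) fun c hc => ?_) ?_
    · exact hcon c hc
    · intro g hgR
      obtain ⟨c, hc, h⟩ := hg g
      exact Set.mem_biUnion (by exact_mod_cast hc) ⟨hgR, h⟩
  have hcR := hC (by exact_mod_cast hcC : c ∈ (C : Set G))
  have hcB : ∀ p ∈ (J : Set G), ∀ q ∈ (J : Set G), ∀ r ∈ (J : Set G), c ≠ p * q⁻¹ * r := by
    intro p hp q hq r hr h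
    refine hcR.2 ?_
    rw [h]
    exact_mod_cast Finset.mem_image.2 ⟨((p, q), r), by
      simp only [Finset.mem_product]; exact ⟨⟨hp, hq⟩, hr⟩, rfl⟩
  have hcJ : c ∉ J := by
    intro h
    exact hcB c h c h c h (by group)
  refine ⟨insert c J, {g ∈ R | ∀ b ∈ J, g * b⁻¹ * g ≠ c}, Finset.subset_insert _ _,
    Finset.card_insert_of_notMem hcJ, ?_, hcinf, ?_⟩
  · rw [Finset.coe_insert]
    exact ws_insert hJ (hJR c hcR.1) hcB
  · intro g hg' b hb d hd h
    rw [Finset.coe_insert] at hb hd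
    rcases hb with rfl | hb
    · rcases hd with rfl | hd
      · rfl
      · exfalso
        refine hg'.2 d hd ?_
        rw [← h]; group
    · rcases hd with rfl | hd
      · exact absurd h (hg'.2 b hb)
      · exact hJR g hg'.1 b hb d hd h

lemma exists_sidon [Infinite G] : ∃ J : Set G, J.Infinite ∧ WS J := by
  classical
  have hex : ∀ n : ℕ, ∀ P : {P : Finset G × Set G // WS (P.1 : Set G) ∧ P.2.Infinite ∧
      ∀ g ∈ P.2, Comp (P.1 : Set G) g}, ∃ P' : {P : Finset G × Set G // WS (P.1 : Set G) ∧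
      P.2.Infinite ∧ ∀ g ∈ P.2, Comp (P.1 : Set G) g}, P.1.1 ⊆ P'.1.1 ∧
      P'.1.1.card = P.1.1.card + 1 := by
    intro _ P
    obtain ⟨J', R', h1, h2, h3, h4, h5⟩ := step P.1.1 P.1.2 P.2.1 P.2.2.1 P.2.2.2
    exact ⟨⟨(J', R'), h3, h4, h5⟩, h1, h2⟩
  choose nxt hnxt using hex
  let P0 : {P : Finset G × Set G // WS (P.1 : Set G) ∧ P.2.Infinite ∧
      ∀ g ∈ P.2, Comp (P.1 : Set G) g} :=
    ⟨(∅, Set.univ), by intro a ha; simp at ha, Set.infinite_univ, by
      intro g _ b hb; simp at hb⟩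
  obtain ⟨P, hP0, hPS⟩ : ∃ P : ℕ → {P : Finset G × Set G // WS (P.1 : Set G) ∧ P.2.Infinite ∧
      ∀ g ∈ P.2, Comp (P.1 : Set G) g}, P 0 = P0 ∧ ∀ n, P (n + 1) = nxt n (P n) :=
    ⟨fun n => Nat.rec P0 (fun n p => nxt n p) n, rfl, fun n => rfl⟩
  have hmono : Monotone fun n => (P n).1.1 := by
    refine monotone_nat_of_le_succ fun n => ?_
    show (P n).1.1 ⊆ (P (n + 1)).1.1
    rw [hPS]; exact (hnxt n (P n)).1
  have hcard : ∀ n, (P n).1.1.card = n := by
    intro n
    induction n with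
    | zero => rw [hP0]; rfl
    | succ n ih => rw [hPS, (hnxt n (P n)).2, ih]
  refine ⟨⋃ n, ((P n).1.1 : Set G), ?_, ?_⟩
  · intro hfin
    have h1 : ∀ n, (P n).1.1.card ≤ hfin.toFinset.card := by
      intro n
      refine Finset.card_le_card fun x hx => ?_
      rw [Set.Finite.mem_toFinset]
      exact Set.mem_iUnion.2 ⟨n, hx⟩
    have h2 := h1 (hfin.toFinset.card + 1)
    rw [hcard] at h2
    omega
  · intro a ha b hb c hc d hd h
    obtain ⟨na, ha⟩ := Set.mem_iUnion.1 ha
    obtain ⟨nb, hb⟩ := Set.mem_iUnion.1 hb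
    obtain ⟨nc, hc⟩ := Set.mem_iUnion.1 hc
    obtain ⟨nd, hd⟩ := Set.mem_iUnion.1 hd
    obtain ⟨m, hm⟩ : ∃ m, m = max (max na nb) (max nc nd) := ⟨_, rfl⟩
    exact (P m).2.1 a (hmono (by omega : na ≤ m) ha) b (hmono (by omega : nb ≤ m) hb)
      c (hmono (by omega : nc ≤ m) hc) d (hmono (by omega : nd ≤ m) hd) h

end Sidon

section Space

variable {G : Type u} [Group G]

/-- the space: configurations all of whose finite sub-supports lie in a translate of `J` -/
def XJ (J : Set G) : Type u :=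
  {x : G → Bool // ∀ F : Finset G, (∀ f ∈ F, x f = true) → ∃ h, ∀ f ∈ F, f * h ∈ J}

variable (J : Set G)

instance : TopologicalSpace (XJ J) := inferInstanceAs (TopologicalSpace
  {x : G → Bool // ∀ F : Finset G, (∀ f ∈ F, x f = true) → ∃ h, ∀ f ∈ F, f * h ∈ J})

instance [Countable G] : TopologicalSpace.MetrizableSpace (XJ J) :=
  have : TopologicalSpace.MetrizableSpace (G → Bool) :=
    TopologicalSpace.metrizableSpace_of_t3_secondCountable _
  have h : TopologicalSpace.MetrizableSpace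
    {x : G → Bool // ∀ F : Finset G, (∀ f ∈ F, x f = true) → ∃ h, ∀ f ∈ F, f * h ∈ J} :=
    Topology.IsEmbedding.subtypeVal.metrizableSpace
  h

lemma isClosed_cond : IsClosed {x : G → Bool | ∀ F : Finset G, (∀ f ∈ F, x f = true) →
    ∃ h, ∀ f ∈ F, f * h ∈ J} := by
  rw [Set.ofPred_forall]
  refine isClosed_iInter fun F => ?_
  by_cases hP : ∃ h, ∀ f ∈ F, f * h ∈ J
  · have : {x : G → Bool | (∀ f ∈ F, x f = true) → ∃ h, ∀ f ∈ F, f * h ∈ J} = Set.univ := by
      ext x; simp only [Set.mem_univ, iff_true]; exact fun _ => hP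
    rw [this]; exact isClosed_univ
  · have : {x : G → Bool | (∀ f ∈ F, x f = true) → ∃ h, ∀ f ∈ F, f * h ∈ J} =
        (⋂ f ∈ F, {x : G → Bool | x f = true})ᶜ := by
      ext x
      simp only [Set.mem_compl_iff, Set.mem_iInter]
      constructor
      · intro h h2; exact hP (h h2)
      · intro h h2; exact absurd h2 h
    rw [this, isClosed_compl_iff]
    refine isOpen_biInter_finset fun f _ => ?_
    have hc : Continuous fun x : G → Bool => x f := continuous_apply f
    exact (isOpen_discrete ({true} : Set Bool)).preimage hc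

instance : CompactSpace (XJ J) :=
  isCompact_iff_compactSpace.1 (isClosed_cond J).isCompact

/-- the shift action `(g • x)(f) = x (f g)` -/
instance : MulAction G (XJ J) where
  smul g x := ⟨fun f => x.1 (f * g), by
    classical
    intro F hF
    obtain ⟨h, hh⟩ := x.2 (F.image fun f => f * g) (by
      intro f hf
      obtain ⟨f', hf', rfl⟩ := Finset.mem_image.1 hf
      exact hF f' hf')
    refine ⟨g * h, fun f hf => ?_⟩
    have := hh (f * g) (Finset.mem_image_of_mem _ hf)
    rwa [mul_assoc] at this⟩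
  one_smul x := by
    apply Subtype.ext; funext f
    show x.1 (f * 1) = x.1 f
    rw [mul_one]
  mul_smul g h x := by
    apply Subtype.ext; funext f
    show x.1 (f * (g * h)) = x.1 (f * g * h)
    rw [mul_assoc]

lemma smul_val (g : G) (x : XJ J) (f : G) : (g • x).1 f = x.1 (f * g) := rfl

lemma cont_smul (g : G) : Continuous fun x : XJ J => g • x := by
  refine Continuous.subtype_mk ?_ _
  exact continuous_pi fun f => (continuous_apply (f * g)).comp continuous_subtype_val

/-- window neighbourhoods -/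
lemma window_nhds (x : XJ J) (F : Finset G) : {y : XJ J | ∀ f ∈ F, y.1 f = x.1 f} ∈ nhds x := by
  have : {y : XJ J | ∀ f ∈ F, y.1 f = x.1 f} =
      ⋂ f ∈ F, {y : XJ J | y.1 f = x.1 f} := by ext y; simp
  rw [this]
  refine (Filter.biInter_finset_mem F).2 fun f _ => ?_
  have hc : Continuous fun y : XJ J => y.1 f := (continuous_apply f).comp continuous_subtype_val
  exact (isOpen_discrete {x.1 f}).preimage hc |>.mem_nhds rfl

lemma exists_window (x : XJ J) {U : Set (XJ J)} (hU : U ∈ nhds x) :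
    ∃ F : Finset G, ∀ y : XJ J, (∀ f ∈ F, y.1 f = x.1 f) → y ∈ U := by
  obtain ⟨V, hV, hVU⟩ := mem_nhds_subtype _ _ _ |>.1 hU
  obtain ⟨W, hWV, hWo, hxW⟩ := mem_nhds_iff.1 hV
  obtain ⟨F, u, hu, huW⟩ := isOpen_pi_iff.1 hWo x.1 hxW
  refine ⟨F, fun y hy => hVU (hWV (huW ?_))⟩
  intro f hf
  rw [hy f hf]
  exact (hu f hf).2

/-- the zero point -/
def zpt : XJ J := ⟨fun _ => false, by
  intro F hF
  refine ⟨1, fun f hf => ?_⟩
  exact absurd (hF f hf) (by simp)⟩

variable {J}

/-- a point with finite support inside `J` -/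
noncomputable def spt (A : Set G) (hA : A ⊆ J) : XJ J := ⟨fun g => by
    classical exact decide (g ∈ A), by
  intro F hF
  refine ⟨1, fun f hf => ?_⟩
  have := hF f hf
  rw [mul_one]
  exact hA (by simpa using this)⟩

lemma spt_val (A : Set G) (hA : A ⊆ J) (g : G) : (spt A hA).1 g = true ↔ g ∈ A := by
  simp [spt]

lemma spt_val_false (A : Set G) (hA : A ⊆ J) (g : G) : (spt A hA).1 g = false ↔ g ∉ A := by
  simp [spt]

/-- the point mass at the identity -/
noncomputable def dpt (hJ : J.Nonempty) : XJ J := ⟨fun g => by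
    classical exact decide (g = 1), by
  intro F hF
  obtain ⟨j, hj⟩ := hJ
  refine ⟨j, fun f hf => ?_⟩
  have := hF f hf
  have h1 : f = 1 := by simpa using this
  rw [h1, one_mul]; exact hj⟩

lemma dpt_val (hJ : J.Nonempty) (g : G) : (dpt hJ).1 g = true ↔ g = 1 := by
  simp [dpt]

lemma not_tame (hJi : J.Infinite) (hJ : WS J) : ¬ NTame G (XJ J) 2 := by
  classical
  intro h
  have hne : J.Nonempty := hJi.nonempty
  obtain ⟨i, j, hij, hxx⟩ := h ![zpt J, dpt hne] (by
    intro U hU
    obtain ⟨F0, hF0⟩ := exists_window J (zpt J) (hU 0)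
    obtain ⟨F1, hF1⟩ := exists_window J (dpt hne) (hU 1)
    obtain ⟨F, hF⟩ : ∃ F : Finset G, F = F0 ∪ F1 := ⟨_, rfl⟩
    -- the exceptional elements
    have hfin : ∀ f : G, {g ∈ J | ∃ g' ∈ J, g' ≠ g ∧ g' * g⁻¹ = f}.Finite := by
      intro f
      by_cases hex : ∃ g ∈ J, ∃ g' ∈ J, g' ≠ g ∧ g' * g⁻¹ = f
      · obtain ⟨g, hg, g', hg', hne', hf⟩ := hex
        refine Set.Finite.subset (Set.toFinite {g, g'}) ?_
        rintro k ⟨hk, k', hk', hkne, hkf⟩
        rcases hJ k' hk' k hk g' hg' g hg (by rw [hkf, hf]) with h1 | h1 | h1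
        · exact absurd h1 hkne
        · left; exact h1.2
        · right; exact h1.2
      · have : {g ∈ J | ∃ g' ∈ J, g' ≠ g ∧ g' * g⁻¹ = f} = ∅ := by
          ext k
          simp only [Set.mem_empty_iff_false, iff_false]
          rintro ⟨hk, hk'⟩
          exact hex ⟨k, hk, hk'⟩
        rw [this]; exact Set.finite_empty
    refine ⟨J \ ⋃ f ∈ F, {g ∈ J | ∃ g' ∈ J, g' ≠ g ∧ g' * g⁻¹ = f},
      hJi.sdiff (F.finite_toSet.biUnion fun f _ => hfin f), ?_⟩
    intro I hIne hIJ σ
    have hIJ' : (I : Set G) ⊆ J := fun g hg => (hIJ hg).1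
    have hsub : {g ∈ (I : Set G) | σ g = 1} ⊆ J := fun g hg => hIJ' hg.1
    refine ⟨spt {g ∈ (I : Set G) | σ g = 1} hsub, ?_⟩
    refine Set.mem_iInter₂.2 fun g hg => ?_
    have hsep : ∀ f ∈ F, ∀ g' ∈ I, f * g = g' → f = 1 := by
      intro f hf g' hg' hfg
      by_contra hf1
      have h1 : g' ≠ g := by
        rintro rfl
        exact hf1 (mul_eq_right.1 hfg)
      refine (hIJ (by exact_mod_cast hg : g ∈ (I : Set G))).2 ?_
      refine Set.mem_biUnion (by exact_mod_cast hf) ⟨hIJ' hg, g', hIJ' hg', h1, ?_⟩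
      rw [← hfg]; group
    refine ⟨g • spt {g ∈ (I : Set G) | σ g = 1} hsub, ?_, by simp⟩
    rcases Fin.exists_fin_two.1 ⟨σ g, rfl⟩ with h0 | h1
    · rw [h0]
      refine hF0 _ fun f hf => ?_
      rw [smul_val]
      show _ = false
      rw [spt_val_false]
      rintro ⟨hm, hσ⟩
      have := hsep f (by rw [hF]; exact Finset.mem_union_left _ hf) (f * g) hm rfl
      rw [this, one_mul] at hσ
      rw [hσ] at h0; exact absurd h0 (by decide)
    · rw [h1]
      refine hF1 _ fun f hf => ?_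
      rw [smul_val]
      rw [Bool.eq_iff_iff, spt_val, dpt_val]
      constructor
      · rintro ⟨hm, hσ⟩
        exact hsep f (by rw [hF]; exact Finset.mem_union_right _ hf) (f * g) hm rfl
      · rintro rfl
        rw [one_mul]
        exact ⟨hg, h1⟩)
  have hz : (zpt J) ≠ dpt hne := by
    intro h
    have h1 := (dpt_val hne 1).2 rfl
    rw [← h] at h1
    exact absurd h1 (by simp [zpt])
  fin_cases i <;> fin_cases j
  · exact hij rfl
  · exact hz hxx
  · exact hz hxx.symm
  · exact hij rfl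

/-- consequences of independence -/
lemma indep_point {n : ℕ} {x : Fin n → XJ J} (hx : IsITTuple G x) (F : Finset G) :
    ∃ S : Set G, S.Infinite ∧ ∀ I : Finset G, I.Nonempty → (I : Set G) ⊆ S →
      ∀ σ : G → Fin n, ∃ h : G, ∀ g ∈ I, ∀ f ∈ F, (x (σ g)).1 f = true → f * g * h ∈ J := by
  classical
  obtain ⟨S, hS, hind⟩ := hx (fun i => {y : XJ J | ∀ f ∈ F, y.1 f = (x i).1 f})
    (fun i => window_nhds J (x i) F)
  refine ⟨S, hS, fun I hI hIS σ => ?_⟩
  obtain ⟨y, hy⟩ := hind I hI hIS σ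
  have hy' : ∀ g ∈ I, ∀ f ∈ F, y.1 (f * g) = (x (σ g)).1 f := by
    intro g hg f hf
    obtain ⟨z, hz, hzy⟩ := Set.mem_iInter₂.1 hy g hg
    have : z = g • y := by rw [← hzy]; simp
    rw [← smul_val, ← this]
    exact hz f hf
  obtain ⟨h, hh⟩ := y.2 (((I ×ˢ F).filter fun p => (x (σ p.1)).1 p.2 = true).image
    fun p => p.2 * p.1) (by
      intro k hk
      obtain ⟨p, hp, rfl⟩ := Finset.mem_image.1 hk
      obtain ⟨hp1, hp2⟩ := Finset.mem_filter.1 hp
      obtain ⟨hp3, hp4⟩ := Finset.mem_product.1 hp1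
      rw [hy' p.1 hp3 p.2 hp4]; exact hp2)
  refine ⟨h, fun g hg f hf hfx => ?_⟩
  exact hh (f * g) (Finset.mem_image.2 ⟨(g, f), Finset.mem_filter.2
    ⟨Finset.mem_product.2 ⟨hg, hf⟩, hfx⟩, rfl⟩)

/-- two translates with constant quotient: at most two indices -/
lemma no_three (hJ : WS J) {a b h : G} (hab : a ≠ b) {g₁ g₂ g₃ : G} (h12 : g₁ ≠ g₂)
    (h13 : g₁ ≠ g₃) (h23 : g₂ ≠ g₃)
    (ha1 : a * g₁ * h ∈ J) (hb1 : b * g₁ * h ∈ J)
    (ha2 : a * g₂ * h ∈ J) (hb2 : b * g₂ * h ∈ J)
    (ha3 : a * g₃ * h ∈ J) (hb3 : b * g₃ * h ∈ J) : False := by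
  have e : ∀ g g' : G, a * g * h * (b * g * h)⁻¹ = a * g' * h * (b * g' * h)⁻¹ := by
    intro g g'; group
  have hne : ∀ g : G, a * g * h ≠ b * g * h := by
    intro g hg
    exact hab (mul_right_cancel (mul_right_cancel hg))
  have hinj : ∀ {c g g' : G}, c * g * h = c * g' * h → g = g' := by
    intro c g g' hg
    exact mul_left_cancel (mul_right_cancel hg)
  have k12 : a * g₁ * h = b * g₂ * h := by
    rcases hJ _ ha1 _ hb1 _ ha2 _ hb2 (e g₁ g₂) with h1 | h1 | h1
    · exact absurd h1 (hne _)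
    · exact absurd (hinj h1.1) h12
    · exact h1.1
  have k13 : a * g₁ * h = b * g₃ * h := by
    rcases hJ _ ha1 _ hb1 _ ha3 _ hb3 (e g₁ g₃) with h1 | h1 | h1
    · exact absurd h1 (hne _)
    · exact absurd (hinj h1.1) h13
    · exact h1.1
  exact h23 (hinj (k12.symm.trans k13))

omit [Group G] in
/-- distinct elements of an infinite set -/
lemma exists_six {S : Set G} (hS : S.Infinite) : ∃ g : Fin 6 → G, Function.Injective g ∧
    ∀ i, g i ∈ S := by
  obtain ⟨C, hC, hcard⟩ := hS.exists_subset_card_eq 6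
  let e := C.equivFinOfCardEq hcard
  refine ⟨fun i => (e.symm i).1, fun i j hij => e.symm.injective (Subtype.ext hij), fun i => ?_⟩
  exact hC (e.symm i).2

/-- entries of an IT-tuple have at most one point in their support -/
lemma supp_le_one (hJ : WS J) {n : ℕ} {x : Fin n → XJ J} (hx : IsITTuple G x) (i : Fin n)
    {a b : G} (ha : (x i).1 a = true) (hb : (x i).1 b = true) : a = b := by
  classical
  by_contra hab
  obtain ⟨S, hS, hind⟩ := indep_point hx {a, b}
  obtain ⟨g, hg, hgS⟩ := exists_six hS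
  obtain ⟨h, hh⟩ := hind (Finset.univ.image g) ⟨g 0, Finset.mem_image_of_mem _ (Finset.mem_univ _)⟩
    (by
      intro k hk
      obtain ⟨j, _, rfl⟩ := Finset.mem_image.1 (by exact_mod_cast hk)
      exact hgS j) (fun _ => i)
  have hm : ∀ j, g j ∈ Finset.univ.image g := fun j => Finset.mem_image_of_mem _ (Finset.mem_univ _)
  have hA : ∀ j, a * g j * h ∈ J := fun j => hh _ (hm j) a (by simp) ha
  have hB : ∀ j, b * g j * h ∈ J := fun j => hh _ (hm j) b (by simp) hb
  exact no_three hJ hab (g₁ := g 0) (g₂ := g 1) (g₃ := g 2)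
    (fun h => absurd (hg h) (by decide)) (fun h => absurd (hg h) (by decide))
    (fun h => absurd (hg h) (by decide)) (hA 0) (hB 0) (hA 1) (hB 1) (hA 2) (hB 2)

/-- two entries of an IT-tuple cannot have distinct nonempty supports -/
lemma same_supp (hJ : WS J) {n : ℕ} {x : Fin n → XJ J} (hx : IsITTuple G x) (i j : Fin n)
    {a b : G} (ha : (x i).1 a = true) (hb : (x j).1 b = true) : a = b := by
  classical
  by_contra hab
  obtain ⟨S, hS, hind⟩ := indep_point hx {a, b}
  obtain ⟨g, hg, hgS⟩ := exists_six hS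
  have hm : ∀ j, g j ∈ Finset.univ.image g := fun j => Finset.mem_image_of_mem _ (Finset.mem_univ _)
  have hIS : ((Finset.univ.image g : Finset G) : Set G) ⊆ S := by
    intro k hk
    obtain ⟨j, _, rfl⟩ := Finset.mem_image.1 (by exact_mod_cast hk)
    exact hgS j
  obtain ⟨h, hh⟩ := hind (Finset.univ.image g) ⟨g 0, hm 0⟩ hIS (fun _ => i)
  obtain ⟨h', hh'⟩ := hind (Finset.univ.image g) ⟨g 0, hm 0⟩ hIS
    (fun k => if k = g 0 ∨ k = g 1 ∨ k = g 2 then i else j)
  have hA : ∀ j, a * g j * h ∈ J := fun j => hh _ (hm j) a (by simp) ha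
  have hA' : ∀ k : Fin 6, (k = 0 ∨ k = 1 ∨ k = 2) → a * g k * h' ∈ J := by
    intro k hk
    refine hh' _ (hm k) a (by simp) ?_
    have : g k = g 0 ∨ g k = g 1 ∨ g k = g 2 := by
      rcases hk with rfl | rfl | rfl <;> simp
    rw [if_pos this]; exact ha
  have hB' : ∀ k : Fin 6, ¬ (k = 0 ∨ k = 1 ∨ k = 2) → b * g k * h' ∈ J := by
    intro k hk
    refine hh' _ (hm k) b (by simp) ?_
    have : ¬ (g k = g 0 ∨ g k = g 1 ∨ g k = g 2) := by
      intro hcon
      apply hk
      rcases hcon with h1 | h1 | h1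
      · exact Or.inl (hg h1)
      · exact Or.inr (Or.inl (hg h1))
      · exact Or.inr (Or.inr (hg h1))
    rw [if_neg this]; exact hb
  -- the two translates agree
  have e : ∀ p q : G, a * p * h * (a * q * h)⁻¹ = a * p * h' * (a * q * h')⁻¹ := by
    intro p q; group
  have hinj : ∀ {c h p q : G}, c * p * h = c * q * h → p = q := by
    intro c h p q hpq
    exact mul_left_cancel (mul_right_cancel hpq)
  have n01 : g 0 ≠ g 1 := fun h => absurd (hg h) (by decide)
  have n02 : g 0 ≠ g 2 := fun h => absurd (hg h) (by decide)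
  have n12 : g 1 ≠ g 2 := fun h => absurd (hg h) (by decide)
  have hh_eq : a * g 0 * h = a * g 0 * h' := by
    rcases hJ _ (hA 0) _ (hA 1) _ (hA' 0 (by simp)) _ (hA' 1 (by simp)) (e _ _) with
      h1 | h1 | h1
    · exact absurd (hinj h1) n01
    · exact h1.1
    · rcases hJ _ (hA 0) _ (hA 2) _ (hA' 0 (by simp)) _ (hA' 2 (by simp)) (e _ _) with
        h2 | h2 | h2
      · exact absurd (hinj h2) n02
      · exact h2.1
      · exact absurd (hinj (h1.1.symm.trans h2.1)) n12
  have heq : h = h' := mul_left_cancel hh_eq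
  subst heq
  exact no_three hJ hab (g₁ := g 3) (g₂ := g 4) (g₃ := g 5)
    (fun h => absurd (hg h) (by decide)) (fun h => absurd (hg h) (by decide))
    (fun h => absurd (hg h) (by decide)) (hA 3) (hB' 3 (by decide)) (hA 4) (hB' 4 (by decide))
    (hA 5) (hB' 5 (by decide))

lemma three_tame (hJ : WS J) : NTame G (XJ J) 3 := by
  classical
  intro x hx
  by_contra hcon
  push Not at hcon
  -- at most one entry is zero
  have hex : ∀ i j, i ≠ j → (∃ a, (x i).1 a = true) ∨ (∃ a, (x j).1 a = true) := by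
    intro i j hij
    by_contra h
    push Not at h
    refine hcon i j hij (Subtype.ext (funext fun a => ?_))
    have h1 := h.1 a
    have h2 := h.2 a
    simp only [ne_eq, Bool.not_eq_true] at h1 h2
    rw [h1, h2]
  have hdist : ∀ i j, i ≠ j → (∃ a, (x i).1 a = true) → (∃ a, (x j).1 a = true) → False := by
    rintro i j hij ⟨a, ha⟩ ⟨b, hb⟩
    refine hcon i j hij (Subtype.ext (funext fun c => ?_))
    have hab := same_supp hJ hx i j ha hb
    rw [Bool.eq_iff_iff]
    constructor
    · intro hc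
      have := supp_le_one hJ hx i ha hc
      rw [← this, hab]; exact hb
    · intro hc
      have := supp_le_one hJ hx j hb hc
      rw [← this, ← hab]; exact ha
  rcases hex 0 1 (by decide) with h0 | h1
  · rcases hex 1 2 (by decide) with h1 | h2
    · exact hdist 0 1 (by decide) h0 h1
    · exact hdist 0 2 (by decide) h0 h2
  · rcases hex 0 2 (by decide) with h0 | h2
    · exact hdist 0 1 (by decide) h0 h1
    · exact hdist 1 2 (by decide) h1 h2

end Space

/-- For every countable infinite group `G` there is a compact metric space with a continuous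
`G`-action which is `3`-tame but not tame (`= 2`-tame). -/
theorem result (G : Type u) [Group G] [Countable G] [Infinite G] :
    ∃ (X : Type u) (_ : MetricSpace X) (_ : CompactSpace X) (_ : MulAction G X),
      (∀ g : G, Continuous fun x : X => g • x) ∧ NTame G X 3 ∧ ¬ NTame G X 2 := by
  obtain ⟨J, hJi, hJ⟩ := exists_sidon (G := G)
  exact ⟨XJ J, TopologicalSpace.metrizableSpaceMetric _, inferInstance, inferInstance,
    cont_smul J, three_tame hJ, not_tame hJi hJ⟩

end Pool.Agent.Results.MP_6a4cde_an.ThreeTame
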